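import Pool.Agent.KS6_81.HP.Thm
import Pool.Graph.R_seed8.W574.CN.Cone
import Pool.Graph.R_pool_sql_team_seeded_620a6dc7.helper748_mc_.Thm

set_option autoImplicit false

/-! # Forms in three variables with a point of multiplicity greater than `2d/3`

Let `f` be a form of degree `d` in three variables. The local topological zeta function of `f` at the
origin is `Z_J / (d s + 3)`, where `Z_J` comes from the curve `f = 0` in the projective plane by blowing
up points (`ConeZeta`, for the principal ideal `(f)`). All its poles except `-3/d` are known to be roots
of the local Bernstein-Sato polynomial (starting library, `cone_main`). The question is whether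
`-3/d` is a root.

We prove this if the curve has a point `P` of multiplicity `d - k > 2d/3` with a mild tangent cone
(`HeavyPoint`), for instance an ordinary multiple point. There is no condition on the other
singularities or the multiple components of the curve, except that some line through `P`, which is
not in the tangent cone, meets the curve in at least two more points (so `k ≥ 2`). The log canonical
threshold of the cone is at most `2/(d - k) < 3/d`.

The proof uses the complex powers `|f|^(2s)`. Let `b(s) f^s = P(s) f^(s+1)`. Then the integral of
`|f|^(2s) ψ`, `ψ` a test function on `ℂ^3`, times `b(s) \bar b(s)`, has an analytic continuation to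
`s > -1` (`crit`, from the functional equation for `|f|²` in the real coordinates). Integrate first over
the lines through `P`. On such a line `f = A_0(t) ∏ (x - r_i(t))`, and for the test functions
`ϑ_s(x) = θ(x/2) - 2^(2ks+2) θ(x)` the integral of `|x|^(2ks) ϑ_s` is zero (`2ks > -2`). By this and the
inequality of the arithmetic and the geometric mean, the integral of `∏ |x - r_i|^(2s) ϑ_s`, for
small `r_i`, is up to small terms the integral of `(1/k) ∑ |x - r_i|^(2ks) - ∏ |x - r_i|^(2s) ≥ 0`
times `-ϑ_s(0) > 0`. The resulting function of `t` is homogeneous of the degree `2ds + 2` (in `|t|`), it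
is integrable near `0` only for `s > -3/d`, and the integral over `t` tends to infinity for
`s → -3/d`. -/

namespace Pool.Agent.Results.MP_6163c8_ag.HeavyPointForms

open MvPolynomial Pool.Agent.W574.SM Pool.Agent.W574.CN Pool.Agent.W574.MO Pool.Agent.H628R4.TP
  Pool.Agent.KS6_81.HP

/-- **The strong monodromy conjecture at the origin for forms in three variables with a point of
multiplicity greater than `2d/3` and a mild tangent cone.** Let `f` be a form of degree `d` in three
variables which satisfies `HeavyPoint`, let `b` satisfy a functional equation
`b(s) f ^ s = P(s) f ^ (s + 1)` with a differential operator `P(s)` with formal power series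
coefficients (in particular the local Bernstein-Sato polynomial of `f` at the origin), and let `Z` be
the local topological zeta function of `f` at the origin. Then `b(-3/d) = 0`, and every pole of `Z` is a
root of `b`. -/
theorem result (f : MvPolynomial (Fin 3) ℂ) (d : ℕ) (hf : f.IsHomogeneous d)
    (h : HeavyPoint d f) (b : Polynomial ℂ) (hb : IsLocalBFunction f b) :
    b.eval (-3 / (d : ℂ)) = 0 ∧
    ∀ Z : RatFunc ℂ, ConeZeta (fun _ : Unit => f) d Z →
      ∀ s₀ : ℂ, Z.denom.eval s₀ = 0 → b.eval s₀ = 0 := by
  classical
  have hf0 : f ≠ 0 := h.ne_zero
  have hd : 0 < d := h.pos
  have hg : IsBFunction f b := global_of_local f hf0 d hf b hb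
  have h3 := heavy_root h hg
  refine ⟨h3, fun Z hZ s₀ hs₀ => ?_⟩
  by_cases hs : s₀ = -3 / d
  · rw [hs]
    exact h3
  · exact cone_main (fun _ : Unit => f) d hd (fun _ => hf) b
      (Pool.Agent.Helper748.MC.funEq_unit f b hg) Z hZ s₀ hs₀ (Or.inl hs)

end Pool.Agent.Results.MP_6163c8_ag.HeavyPointForms
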