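import Pool.Agent.KS6_80.RC.Top

set_option autoImplicit false

/-! # The local strong monodromy conjecture for products of powers of transversal forms with a real
# chamber

Let `F_i` be forms in `N = m + 1 ≥ 2` variables such that the hypersurfaces `F_i = 0` of the complex
projective space are smooth and cross each other transversally, and let `f = ∏ F_i ^ (n_i)` be of
degree `d > 0`. Suppose that `f` has, in some complex linear coordinates and up to a constant
factor, real coefficients and a chamber with a mild boundary (`HasChamber`); so only those
multiplicities `n_i` have to be at most `d/N` for which `F_i = 0` meets the closure of the chamber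
outside of the origin. Then every pole of the local topological zeta function of `f` at the origin
is a root of the local Bernstein-Sato polynomial.

For example, `f = (x_0 ^ 2 - x_1 ^ 2 - … - x_m ^ 2) ^ n ∏ F_i ^ (n_i)`, where the real hypersurfaces
`F_i = 0` do not meet the closed light cone `x_0 ^ 2 ≥ x_1 ^ 2 + … + x_m ^ 2` except at the origin,
`n ≤ d/N`, and the `n_i` are arbitrary (large).

* The poles `-1/n_i` are roots.
* The root `-N/d` (`root_cone`): the integral of `f ^ s` over the part of the chamber in a ball
  converges for `s > -N/d` and tends to infinity for `s → -N/d`; a functional equation with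
  `b(-N/d) ≠ 0` would give an analytic continuation (starting library, `T6.H16.RA`, where this is used
  for real arrangements). Near the boundary: `locInt_snc`, `locInt_mult`. -/

namespace Pool.Agent.Results.MP_6163c8_ag.RealChamberCrossings

open MvPolynomial Pool.Agent.W574.MO Pool.Agent.H628R4.TP
open Pool.Agent.KS6_80.RC (HasChamber root_hasChamber ne_zero_of_chamber SncTopZeta)
open Pool.Agent.KS6_80.SN (Snc)

/-- **The local strong monodromy conjecture for `f = ∏ F_i ^ (n_i)` with a real chamber**, in any number
`N = m + 1 ≥ 2` of variables: the `F_i` are forms of the degrees `e_i > 0` such that the `F_i = 0` are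
smooth and transversal to each other in the complex projective space (`Snc`), `d = ∑ n_i e_i > 0` is
the degree of `f`, and `f` has a chamber with a mild boundary in some linear coordinates
(`HasChamber`). Let `b` satisfy a functional equation `b(s) f ^ s = P(s) f ^ (s + 1)`, where `P(s)` is a
differential operator with formal power series coefficients, in particular the local
Bernstein-Sato polynomial at the origin, and let `Z` be the local topological zeta function of `f` at
the origin (`SncTopZeta`). Then every pole of `Z` is a root of `b`. -/
theorem result {m : ℕ} (hm : 1 ≤ m) {κ : Type} [Fintype κ]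
    (F : κ → MvPolynomial (Fin (m + 1)) ℂ) (e n : κ → ℕ) (hF : ∀ i, (F i).IsHomogeneous (e i))
    (he : ∀ i, 0 < e i) (hS : Snc F) (d : ℕ) (hd : 0 < d) (hfd : d = ∑ i, n i * e i)
    (hU : HasChamber (∏ i, F i ^ n i) d) (b : Polynomial ℂ)
    (hb : IsLocalBFunction (∏ i, F i ^ n i) b) (Z : RatFunc ℂ) (hZ : SncTopZeta (m + 1) d n Z)
    (s₀ : ℂ) (hs₀ : Z.denom.eval s₀ = 0) : b.eval s₀ = 0 := by
  classical
  have hhom : (∏ i, F i ^ n i).IsHomogeneous d := by
    rw [hfd]
    refine IsHomogeneous.prod _ _ _ fun i _ => ?_
    rw [mul_comm]
    exact (hF i).pow (n i)
  have hb' := global_of_local _ (ne_zero_of_chamber hU) d hhom b hb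
  exact Pool.Agent.KS6_80.RC.snc_top (by omega) F e n hF he
    (Pool.Agent.KS6_80.RC.ne_zero_of_snc F hS) hS d hd b hb' (root_hasChamber hd hU hb') Z hZ s₀ hs₀

end Pool.Agent.Results.MP_6163c8_ag.RealChamberCrossings
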