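import Pool.Agent.KS6_80.RC.Thm
import Pool.Graph.R_seed8.W574.MO.Homog
import Pool.Graph.R_pool_sql_team_seeded_620a6dc7.helper748_mc_.FanThm

set_option autoImplicit false

/-! # The local strong monodromy conjecture for forms in three variables with a real chamber with a
# mild boundary

Let `f` be a form of degree `d > 0` in three variables, with arbitrary singularities and
multiplicities, which in some linear coordinates and up to a constant factor has real coefficients
and a chamber `U` with a mild boundary (`HasChamber`): an open cone in `ℝ ^ 3` on which `f > 0`, such
that `f = 0` on the boundary and near every point `x ≠ 0` of the boundary `f ^ s` is integrable on `U`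
for `s > -3/d`; this is so if the multiplicity of `f` at `x` is at most `d/3`, or if the curve has
normal crossings at `x` with multiplicities at most `d/3` of the components. Then every pole of the
local topological zeta function of `f` at the origin is a root of the local Bernstein-Sato
polynomial.

For example, let the real curve `f = 0` have an oval without singular points, on which `f` vanishes
with a multiplicity at most `d/3`. Then the theorem applies, for arbitrary singularities and
multiplicities of the curve outside of the oval, real or not; the log canonical threshold of `f` may
be much smaller than `3/d`. Or let `f` have no real zero at all except the origin.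

* All the poles except possibly `-3/d` are roots (starting library, `Pool.Agent.W574`).
* The root `-3/d` (`root_cone`): the integral of `f ^ s` over the part of `U` in a ball converges for
  `s > -3/d` and tends to infinity for `s → -3/d`, because it is the integral over an annulus times a
  geometric series; a functional equation with `b(-3/d) ≠ 0` would give an analytic continuation
  (starting library, `T6.H16.RA`, where this is used for real arrangements). The integrability near
  the boundary: `locInt_mult` (sublevel sets of functions whose `m`-th derivative is bounded from
  below) and `locInt_snc` (change of coordinates). -/

namespace Pool.Agent.Results.MP_6163c8_ag.RealChamberForms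

open MvPolynomial Pool.Agent.W574.CN Pool.Agent.W574.MO Pool.Agent.H628R4.TP
open Pool.Agent.Helper748.MC
open Pool.Agent.KS6_80.RC (HasChamber root_hasChamber ne_zero_of_chamber)

/-- **The local strong monodromy conjecture for forms `f` of degree `d > 0` in three variables which have
a chamber with a mild boundary in some linear coordinates** (`HasChamber`); the singularities and
multiplicities are arbitrary outside of the boundary of the chamber.

Let `b` satisfy a functional equation `b(s) f ^ s = P(s) f ^ (s + 1)`, where `P(s)` is a differential
operator with formal power series coefficients, in particular the local Bernstein-Sato polynomial
at the origin, and let `Z` be the local topological zeta function of `f` at the origin (`ConeZeta`,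
for the ideal `(f)`: it is computed from the curve `f = 0` in the projective plane by blowing up
points). Then every pole of `Z` is a root of `b`. -/
theorem result (f : MvPolynomial (Fin 3) ℂ) (d : ℕ) (hd : 0 < d) (hf : f.IsHomogeneous d)
    (hU : HasChamber f d) (b : Polynomial ℂ) (hb : IsLocalBFunction f b) (Z : RatFunc ℂ)
    (hZ : ConeZeta (fun _ : Unit => f) d Z) (s₀ : ℂ) (hs₀ : Z.denom.eval s₀ = 0) :
    b.eval s₀ = 0 := by
  classical
  have hb' := global_of_local f (ne_zero_of_chamber hU) d hf b hb
  have hr : b.eval (-3 / d : ℂ) = 0 := by
    have h := root_hasChamber hd hU hb'
    rw [Nat.cast_ofNat] at h
    exact h
  exact top_ideal_of (fun _ : Unit => f) d hd (fun _ => hf) b (funEq_unit f b hb') hr Z hZ s₀ hs₀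

end Pool.Agent.Results.MP_6163c8_ag.RealChamberForms
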