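import Pool.Agent.KS6_81.SQ.Thm
import Pool.Graph.R_seed8.W574.CN.Cone
import Pool.Graph.R_pool_sql_team_seeded_620a6dc7.helper748_mc_.Thm

set_option autoImplicit false

/-! # Forms in three variables whose curve has semi-quasi-homogeneous singularities

Let `f` be a form of degree `d` in three variables. The local topological zeta function of `f` at the
origin is `Z_J / (d s + 3)`, where `Z_J` comes from the curve `f = 0` in the projective plane by blowing
up points (`ConeZeta`, for the principal ideal `(f)`). All its poles except `-3/d` are known to be roots
of the local Bernstein-Sato polynomial (starting library, `cone_main`). The question is whether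
`-3/d` is a root.

Here `f = ∏ F_i ^ n_i` has arbitrary multiplicities, and the reduced curve `h = ∏ F_i = 0`, of degree `δ`,
has semi-quasi-homogeneous singularities (`SqhForm`): in suitable étale coordinates at the singular
point `p`, with weights `w`, the initial form of `h` has an isolated singularity. Let `D` be the weight
of `h`, and let the other terms have weights `≥ D + κ`. Put `E_p = D + 1 - 2|w| - κ` (or `0`, if this is
negative). So `E_p = 0` for quasi-homogeneous singularities (they have coordinates with an arbitrarily
large `κ`), `E_p = 1` for the exceptional unimodal plane curve singularities `x³ + y⁷ + a x y⁵`, ....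
If `M = 3 ∑ n_i D_i / d` is an integer (the local system has trivial monodromy around the exceptional
divisor), then `E_p ≥ D + 1 - |w| - M`. The conditions of weight `≥ E_p` have to be independent on the
curves of degree `δ - 6`.

Proof. If `-3/d` is not a root, then `f ^ (-3/d) Ω = d η` on the complement of the curve, `Ω` the canonical
two form with values in `O(3)`. The reduction of the pole order `N` of `η`: a vector
`θ` of forms with `h curl θ = τ × θ + h ^ (N + 1) x`, `x · θ = 0`; at `p`, the weighted homogeneous components
of `θ` of weight `< N D + min (M, |w| + κ)` come from a function, and the remaining part, times a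
function of weight `E_p`, is in the submodule generated by `τ` and `h`, since its weight exceeds the
socle degree `2 D - 2 |w|` of the Milnor algebra. By Krull's theorem and the Nullstellensatz this
holds globally; for `N = 1` the factors are removed by an expansion in powers of `z`, since the
relations between the forms `j_i` have degrees less than `δ - 3`. Finally `N = 0`: `η` is given by a
linear vector field `V` of trace zero with `V f = - (d/3) f`, a contradiction. -/

namespace Pool.Agent.Results.MP_6163c8_ag.SemiQuasiHomogeneousForms

open MvPolynomial Pool.Agent.W574.SM Pool.Agent.W574.CN Pool.Agent.W574.MO Pool.Agent.H628R4.TP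
  Pool.Agent.KS6_81.SQ

/-- **The strong monodromy conjecture at the origin for forms in three variables whose reduced curve
has semi-quasi-homogeneous singularities with independent conditions.** Let `f` be a form of degree
`d` in three variables which satisfies `SqhForm`, let `b` satisfy a functional equation
`b(s) f ^ s = P(s) f ^ (s + 1)` with a differential operator `P(s)` with formal power series
coefficients (in particular the local Bernstein-Sato polynomial of `f` at the origin), and let `Z` be
the local topological zeta function of `f` at the origin. Then `b(-3/d) = 0`, and every pole of `Z` is a
root of `b`. -/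
theorem result (f : MvPolynomial (Fin 3) ℂ) (d : ℕ) (hf : f.IsHomogeneous d)
    (h : SqhForm d f) (b : Polynomial ℂ) (hb : IsLocalBFunction f b) :
    b.eval (-3 / (d : ℂ)) = 0 ∧
    ∀ Z : RatFunc ℂ, ConeZeta (fun _ : Unit => f) d Z →
      ∀ s₀ : ℂ, Z.denom.eval s₀ = 0 → b.eval s₀ = 0 := by
  classical
  have hg : IsBFunction f b := global_of_local f h.ne_zero d hf b hb
  have h3 := h.root hf hg
  refine ⟨h3, fun Z hZ s₀ hs₀ => ?_⟩
  by_cases hs : s₀ = -3 / d
  · rw [hs]
    exact h3
  · exact cone_main (fun _ : Unit => f) d h.pos (fun _ => hf) b
      (Pool.Agent.Helper748.MC.funEq_unit f b hg) Z hZ s₀ hs₀ (Or.inl hs)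

end Pool.Agent.Results.MP_6163c8_ag.SemiQuasiHomogeneousForms
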